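import Pool.Agent.P.MP_a0f0ad_al.Main

set_option autoImplicit false
open scoped Pointwise

namespace Pool.Agent.Results.MP_a0f0ad_al.AbelianByCyclic

/-- A finitely generated group whose third lower central term is finite and which maps onto the
integers with a kernel having finite derived subgroup (for example a 2-step nilpotent
abelian-by-infinite-cyclic group) has rational growth for some finite generating set. -/
theorem result :
    ∀ (G : Type) [Group G] [Group.FG G],
      Finite ((⊤ : Subgroup G).lowerCentralSeries 2) →
      ∀ χ : G →* Multiplicative ℤ, Function.Surjective χ →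
        Finite (⁅χ.ker, χ.ker⁆ : Subgroup G) →
      ∃ S : Finset G, Subgroup.closure (S : Set G) = ⊤ ∧
        ∃ P Q : Polynomial ℚ, Q.coeff 0 ≠ 0 ∧
          (Q : PowerSeries ℚ) *
              PowerSeries.mk (fun n : ℕ =>
                ((((({1} : Set G) ∪ (S : Set G) ∪ (S : Set G)⁻¹) ^ n).ncard : ℕ) : ℚ)) =
            (P : PowerSeries ℚ) :=
  fun _ _ _ h3 χ hχ hk => Pool.Agent.P.MP_a0f0ad_al.growth_main h3 χ hχ hk

end Pool.Agent.Results.MP_a0f0ad_al.AbelianByCyclic
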